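import Pool.Agent.H33.HC.TB
import Pool.Agent.H57.HH.IDF

/-!
# GA3C: the sum over the complementary divisors, complex values (MP_347b49_nt)
-/

set_option autoImplicit false

open NumberField Complex Filter Topology MeasureTheory
open scoped ContDiff nonZeroDivisors

namespace Pool.Agent.H11.HC

open Pool.Agent.H33.HC Pool.Agent.H33.HH Pool.Agent.H28.RC Pool.Agent.H37.CV Pool.Agent.H57.HH
  Pool.Agent.H3.CV

theorem ga_nm_pos {K : Type} [Field K] [NumberField K] (l : NI K) : 0 < nm l.1 := by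
  have h : Ideal.absNorm l.1 ≠ 0 := fun h => l.2 (Ideal.absNorm_eq_zero_iff.1 h)
  have h1 : 0 < Ideal.absNorm l.1 := Nat.pos_of_ne_zero h
  unfold nm
  exact_mod_cast h1

theorem ga_intC (h1 : T_GSC) (h2 : T_HSC) {W G H : ℝ → ℝ} (hW : IsW W) (hG : IsG G) (hH : IsH H)
    {s : ℂ} (hs : Nr s) {t : ℝ} (ht : 0 < t) (x v : ℝ) :
    Integrable (fun g : ℂ => Hs H s (‖g‖ ^ 2) * Gs G s (‖g‖ ^ 2 * t) *
      ((w1 W (‖g - 1‖ ^ 2 * x / v) : ℝ) : ℂ)) := by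
  have hHc := ((h2 H hH).1 s).1.continuous
  obtain ⟨hG1, -, hG3, -⟩ := (h1 G hG).1 s hs
  have hGc := hG1.continuous
  have hWc := hW.smooth.continuous
  have hw : Continuous (w1 W) := by
    unfold w1
    exact continuous_id.mul hWc
  have hc : Continuous (fun g : ℂ => Hs H s (‖g‖ ^ 2) * Gs G s (‖g‖ ^ 2 * t) *
      ((w1 W (‖g - 1‖ ^ 2 * x / v) : ℝ) : ℂ)) := by
    refine (Continuous.mul (hHc.comp (continuous_norm.pow 2))
      (hGc.comp ((continuous_norm.pow 2).mul continuous_const))).mul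
      (Complex.continuous_ofReal.comp (hw.comp ?_))
    exact (((continuous_id.sub continuous_const).norm.pow 2).mul continuous_const).div_const v
  refine hc.integrable_of_hasCompactSupport (HasCompactSupport.intro
    (isCompact_closedBall (0 : ℂ) (6 / t + 1)) ?_)
  intro g hg
  have h1 : 6 / t + 1 < ‖g‖ := by
    rw [Metric.mem_closedBall, dist_zero_right, not_le] at hg
    exact hg
  have h2 : 0 < 6 / t := by positivity
  have h3 : 6 ≤ ‖g‖ ^ 2 * t := by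
    have h4 : 6 / t ≤ ‖g‖ ^ 2 := by nlinarith
    rwa [div_le_iff₀ ht] at h4
  rw [hG3 _ h3, mul_zero, zero_mul]

theorem pf_GA3C (h1 : T_GSC) (h2 : T_HSC) (h3 : T_PLC) (h4 : Pool.Agent.H33.HH.T_LSM)
    (h5 : T_GA2C) : T_GA3C := by
  intro K _ _ _ P y W G H hy hW hG hH S hS b k hb hCb hSk s hs Q x t hQ hx ht
  obtain ⟨C, hC, hGA⟩ := h5 W G H hW hG hH
  have hfin : {l : NI K | nm l.1 * Q ≤ C * (x / t + x)}.Finite := by
    have h6 := Ideal.finite_setOfPred_absNorm_le (S := 𝓞 K) ⌊C * (x / t + x) / Q⌋₊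
    refine Set.Finite.of_finite_image (f := fun l : NI K => l.1) (h6.subset ?_)
      Subtype.val_injective.injOn
    rintro I ⟨l, hl, rfl⟩
    refine Nat.le_floor ?_
    have hl' : nm l.1 * Q ≤ C * (x / t + x) := hl
    rw [← le_div_iff₀ hQ] at hl'
    exact hl'
  set Λ : Finset (NI K) := hfin.toFinset with hΛ
  have hout : ∀ l : NI K, l ∉ Λ → ∀ g : ℂ, Hs H s (‖g‖ ^ 2) * Gs G s (‖g‖ ^ 2 * t) *
      ((w1 W (‖g - 1‖ ^ 2 * x / (nm l.1 * Q)) : ℝ) : ℂ) = 0 := by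
    intro l hl g
    by_contra hne
    refine hl ?_
    rw [hΛ, Set.Finite.mem_toFinset]
    exact hGA s g x t (nm l.1 * Q) hx ht (mul_pos (ga_nm_pos l) hQ) hne
  have e1 : ∑' l : NI K, ((gs P S b k l.1 * (Q / nm l.1) : ℝ) : ℂ) *
      ∫ g : ℂ, Hs H s (‖g‖ ^ 2) * Gs G s (‖g‖ ^ 2 * t) *
        ((w1 W (‖g - 1‖ ^ 2 * x / (nm l.1 * Q)) : ℝ) : ℂ) =
      ∑ l ∈ Λ, ((gs P S b k l.1 * (Q / nm l.1) : ℝ) : ℂ) *
      ∫ g : ℂ, Hs H s (‖g‖ ^ 2) * Gs G s (‖g‖ ^ 2 * t) *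
        ((w1 W (‖g - 1‖ ^ 2 * x / (nm l.1 * Q)) : ℝ) : ℂ) := by
    refine tsum_eq_sum fun l hl => ?_
    have h6 : (fun g : ℂ => Hs H s (‖g‖ ^ 2) * Gs G s (‖g‖ ^ 2 * t) *
        ((w1 W (‖g - 1‖ ^ 2 * x / (nm l.1 * Q)) : ℝ) : ℂ)) = fun _ => 0 := funext (hout l hl)
    rw [h6, integral_zero, mul_zero]
  have e2 : ∑ l ∈ Λ, ((gs P S b k l.1 * (Q / nm l.1) : ℝ) : ℂ) *
      ∫ g : ℂ, Hs H s (‖g‖ ^ 2) * Gs G s (‖g‖ ^ 2 * t) *
        ((w1 W (‖g - 1‖ ^ 2 * x / (nm l.1 * Q)) : ℝ) : ℂ) =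
      ∫ g : ℂ, ∑ l ∈ Λ, ((gs P S b k l.1 * (Q / nm l.1) : ℝ) : ℂ) *
        (Hs H s (‖g‖ ^ 2) * Gs G s (‖g‖ ^ 2 * t) *
          ((w1 W (‖g - 1‖ ^ 2 * x / (nm l.1 * Q)) : ℝ) : ℂ)) := by
    rw [integral_finsetSum _ fun l _ =>
      (ga_intC h1 h2 hW hG hH hs ht x (nm l.1 * Q)).const_mul _]
    refine Finset.sum_congr rfl fun l _ => ?_
    rw [integral_const_mul]
  have e3 : ∀ g : ℂ, ∑ l ∈ Λ, ((gs P S b k l.1 * (Q / nm l.1) : ℝ) : ℂ) *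
        (Hs H s (‖g‖ ^ 2) * Gs G s (‖g‖ ^ 2 * t) *
          ((w1 W (‖g - 1‖ ^ 2 * x / (nm l.1 * Q)) : ℝ) : ℂ)) =
      ∑ R₁ ∈ S.powerset, ∑ R₀ ∈ (SP K P).powerset,
        ((ha R₁ b * hk P k R₀ * (Q / (nS np R₁ * nS np R₀)) : ℝ) : ℂ) *
        (Hs H s (‖g‖ ^ 2) * Gs G s (‖g‖ ^ 2 * t) *
          ((Th K W (‖g - 1‖ ^ 2 * (x / (nS np R₁ * nS np R₀ * Q))) : ℝ) : ℂ)) := by
    intro g
    have h6 := h4 K P y W hy hW S hS b k hb hCb hSk Q (‖g - 1‖ ^ 2 * x) hQ (by positivity)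
    by_cases hne : Hs H s (‖g‖ ^ 2) * Gs G s (‖g‖ ^ 2 * t) = 0
    · simp only [hne, zero_mul, mul_zero, Finset.sum_const_zero]
    · have h7 : ∑ l ∈ Λ, ((gs P S b k l.1 * (Q / nm l.1) : ℝ) : ℂ) *
          (Hs H s (‖g‖ ^ 2) * Gs G s (‖g‖ ^ 2 * t) *
            ((w1 W (‖g - 1‖ ^ 2 * x / (nm l.1 * Q)) : ℝ) : ℂ)) =
          Hs H s (‖g‖ ^ 2) * Gs G s (‖g‖ ^ 2 * t) *
            ((∑ l ∈ Λ, gs P S b k l.1 * (Q / nm l.1) *
              w1 W (‖g - 1‖ ^ 2 * x / (nm l.1 * Q)) : ℝ) : ℂ) := by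
        rw [Complex.ofReal_sum, Finset.mul_sum]
        refine Finset.sum_congr rfl fun l _ => ?_
        rw [Complex.ofReal_mul (gs P S b k l.1 * (Q / nm l.1))]
        ring
      have h8 : ∑' l : NI K, gs P S b k l.1 * (Q / nm l.1) *
          w1 W (‖g - 1‖ ^ 2 * x / (nm l.1 * Q)) = ∑ l ∈ Λ, gs P S b k l.1 * (Q / nm l.1) *
            w1 W (‖g - 1‖ ^ 2 * x / (nm l.1 * Q)) := by
        refine tsum_eq_sum fun l hl => ?_
        have h9 := hout l hl g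
        have h10 := (mul_eq_zero.1 h9).resolve_left hne
        rw [Complex.ofReal_eq_zero.1 h10, mul_zero]
      rw [h7, ← h8, h6, Complex.ofReal_sum, Finset.mul_sum]
      refine Finset.sum_congr rfl fun R₁ _ => ?_
      rw [Complex.ofReal_sum, Finset.mul_sum]
      refine Finset.sum_congr rfl fun R₀ _ => ?_
      rw [mul_div_assoc (‖g - 1‖ ^ 2) x,
        Complex.ofReal_mul (ha R₁ b * hk P k R₀ * (Q / (nS np R₁ * nS np R₀)))]
      ring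
  rw [e1, e2]
  simp only [e3]
  have hx' : ∀ R₁ R₀ : Finset (PrI K), 0 < x / (nS np R₁ * nS np R₀ * Q) := by
    intro R₁ R₀
    have h5 := one_le_nS R₁
    have h6 := one_le_nS R₀
    have h7 : 0 < nS np R₁ * nS np R₀ * Q := by positivity
    exact div_pos hx h7
  rw [integral_finsetSum _ fun R₁ _ => integrable_finsetSum _ fun R₀ _ =>
    (h3 K W G H hW hG hH s hs (x / (nS np R₁ * nS np R₀ * Q)) t (hx' R₁ R₀) ht).1.const_mul _]
  refine Finset.sum_congr rfl fun R₁ _ => ?_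
  rw [integral_finsetSum _ fun R₀ _ =>
    (h3 K W G H hW hG hH s hs (x / (nS np R₁ * nS np R₀ * Q)) t (hx' R₁ R₀) ht).1.const_mul _]
  refine Finset.sum_congr rfl fun R₀ _ => ?_
  rw [integral_const_mul,
    (h3 K W G H hW hG hH s hs (x / (nS np R₁ * nS np R₀ * Q)) t (hx' R₁ R₀) ht).2]

end Pool.Agent.H11.HC
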